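import Mathlib
import Pool.Agent.V11219.BstMain
import Pool.Agent.N171.Bq1

/-!
# The conjecture D for products with powers of curves with large Galois groups

Let `W` be a Weil cohomology theory on a class of smooth proper varieties over a field `k` of any
characteristic, with coefficients in a field which contains the 2-adic numbers; the example is the
2-adic cohomology of the varieties over an algebraically closed field `k` of characteristic `p > 2`.
Let `K` be a field of characteristic different from two (for instance a field of functions over a
finite field) with algebraic closure `F` (in the example `F = k`), and `G` a class of
varieties with an action of the Galois group of `F / K` on the cohomology which has the formal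
properties of a Galois action (the example: varieties over `K`), closed under products.

The varieties `X i` are finitely many hyperelliptic curves `y ^ 2 = f i (x)`, or, more generally,
varieties of odd dimension whose transcendental cohomology is in the middle degree and, up to a Tate
twist, isomorphic to the rational 2-adic Tate module of the Jacobian of such a curve. The Tate
module is not a datum here: the Jacobian is the class group of the ring `F[x, y]` with `y ^ 2 = f i (x)`,
with the action of the Galois group on the coefficients.

The only hypotheses on the curves are: the `f i` are monic separable polynomials of odd degrees
`n i ≥ 7` whose Galois groups are symmetric or alternating groups, and for `j ≠ i` the splitting field of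
`f i` is not contained in the splitting field of `f j` (`Large`). The variety `Z` is arbitrary; for a
stable lattice `L` in its cohomology, of rank `d`, the splitting field of `f i` is not contained in the
field generated by the action on `L / 2`, or `(n i)! > 2 ^ (d ^ 2 + 1)` (`FreeOf`).

Let `T` be the product of `Z` with arbitrary powers of the `X i`. Then

1. homological and numerical equivalence coincide for `T` **if and only if** they coincide for `Z`; no
   standard conjecture is assumed for `Z`;
2. if they coincide for `Z` (for instance if `Z` is a point, a curve or a surface), then they coincide
   for every variety `V` which is dominated by `T`, more precisely for which there is a morphism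
   `g : T → V` such that `1` is the direct image under `g` of the class of a cycle.

Proof. Some element of the Galois group acts on the roots of `f i` by the product of two disjoint
transpositions and trivially modulo four on `L`, on the Tate modules of the other curves and on the
roots of unity. Its square is trivial modulo two on the Tate module of the Jacobian of `f i`, but it is
not a scalar modulo four. The logarithms of the conjugates of its powers generate a Lie algebra whose
saturation is the symplectic Lie algebra over the 2-adic integers. These Lie algebras kill all forms on the
Tate modules with values in the cohomology of `Z` which are equivariant under a subgroup of finite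
index. By the first fundamental theorem the algebraic classes on the tower are
combinations of products of algebraic classes on the powers of the `X i` and of classes on `Z`.
By a theorem on the positivity of the form on classes generated by pairs of factors the algebraic classes
of the powers have an orthogonal rational basis; the components of an algebraic class in this basis are
algebraic classes on the other factor. For the second statement: if a combination `c` of algebraic
classes on `V` is orthogonal to all algebraic classes, then so is `g^* c`, so `g^* c = 0`,
and `c = g_*(w g^* c) = 0`, if `g_* w = 1`.
-/

universe u

namespace Pool.Agent.Results.MP_f569db_ag.LargeGaloisGroups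

open Pool.Agent.H914 Pool.Agent.H281R3.HT Pool.Agent.TH125.Gal Pool.Agent.N171.Bq
  Pool.Agent.V11219.Bst

open Polynomial in
/-- **The conjecture D for varieties dominated by products with powers of curves with large Galois
groups.** -/
theorem result {k : Type u} [Field k] {𝒱 : VarClass k} {ops : CycleOps 𝒱}
    (W : WeilCohomology.{u, 0} ops) [Algebra ℚ_[2] W.K] {K F : Type} [Field K] [Field F]
    [Algebra K F] [IsAlgClosure K F] {ι : Type} [Finite ι] (f : ι → K[X]) [∀ i, Branch (f i)]
    (hs : Large F f) (G : Set (GVar W (F ≃ₐ[K] F))) (X : ι → GVar W (F ≃ₐ[K] F))
    (D : ∀ i, (X i).X.Cycles) (Z : GVar W (F ≃ₐ[K] F)) (h : TateSystem f G X D Z)
    (hZ : FreeOf Z.act f) (E : Z.X.Cycles) (L : List (ι × ℕ)) (hL : (L.map Prod.fst).Nodup) :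
    (HomEqNum W (nodalTower X D Z E L).X ↔ HomEqNum W Z.X) ∧
      (HomEqNum W Z.X → ∀ (V : 𝒱.Obj) (g : (nodalTower X D Z E L).X ⟶ V), Dominant W g →
        HomEqNum W V) := by
  classical
  have hF : IsAlgClosed F := IsAlgClosure.isAlgClosed K
  have := Fintype.ofFinite ι
  have h1 := (kSys_large' hs h hZ).homEqNum E L hL
  exact ⟨h1, fun hY V g hg => homEqNum_of_dominant hg (h1.2 hY)⟩

end Pool.Agent.Results.MP_f569db_ag.LargeGaloisGroups
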