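import Pool.Agent.N180.CfL

/-!
# Numerical equivalence is detected by a canonical weight filtration

Let `k` be a field (algebraically closed in the applications) and `W` a Weil cohomology theory, with
coefficients in any field `K` of characteristic zero (for instance `ℚ_ℓ`), on a class of smooth
proper varieties over `k` closed under products. Let `X` be any variety in the class such that the
sign operator of `X`, `(-1) ^ i` on `H^i(X)`, is a `K`-linear combination of algebraic
correspondences (`SignOpAlgebraic`), and let `𝒴` be any set of varieties such that the conjecture D
holds for all products of members of `𝒴` (for instance a point). Let `N ≥ 3`.

**Theorem.** There is a decreasing filtration `F^t`, `t ∈ ℝ`, of `H(X)` by `K`-subspaces, with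
finitely many jumps, which
* is self-dual: `F^t` is the orthogonal complement of the union of the `F^s`, `s > -t`,
* is multiplicative: `1 ∈ F^0` and `F^s F^t ⊆ F^(s+t)`,
* is compatible with the grading by the degrees,
* is stable under all algebraic correspondences from `X` to itself, of all degrees, and under all
  symmetries of `W` (for instance the action of a Galois group on the `ℓ`-adic cohomology),

and such that for all `n ≤ N`, all products `Y` of members of `𝒴`, and all varieties `V` with a
dominating (for instance surjective; see `IsDominating`) morphism `g : X^n × Y ⟶ V`:
* the pull-backs to `X^n × Y` of the classes of **all** algebraic cycles on `V` (and of their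
  `K`-linear combinations) have weight `≥ 0`: they lie in `F^0` of `H(X)^{⊗ n} ⊗ H(Y)`
  (`prodFil`: the tensor power of the filtration `F`; `H(Y)` has weight `0`);
* such a class is **numerically equivalent to zero if and only if its pull-back has weight `> 0`**.

The conjecture D holds for all these `V` if and only if it holds for all `X^n × Y`, if and only if
the filtration is trivial.

So numerical equivalence on all varieties dominated by `X^n × Y` has a cohomological description:
it is homological equivalence for the associated graded space of one filtration of `H(X)`, with all
the symmetries of the cohomology. Without the conjecture D, the algebraic cycles modulo numerical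
equivalence are the images of the cycle classes in the part of weight zero of the associated graded
space of `H(X)^{⊗ n} ⊗ H(Y)`; this identification is compatible with products, correspondences and
the Galois action. If D fails for some `X^n × Y`, then `F^t` for small `t > 0` is a nonzero graded
totally isotropic subspace of `H(X)`, stable under all algebraic correspondences and symmetries, and
under the multiplication by `F^0`.

Examples. `X` can be **any** smooth projective variety over an algebraic closure of a finite field, with
`ℓ`-adic cohomology, for any `ℓ`: the sign operator is algebraic by Katz and Messing. Over any `k`, it can
be an abelian variety, a surface, a variety with `H^i(X) = 0` for all odd `i`, a smooth complete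
intersection, and any product of these.

Proof. The multilinear forms on `H(X)` given by the numerically trivial classes on `X^n × Y`
are closed under contractions, and under products with the forms given by all algebraic classes, and
there is none on `0` variables, since D holds for `Y`. So their common zeros are described by an
ideal to which a criterion of Hilbert-Mumford type applies: there are one-parameter subgroups of
`GL(H(X))`, over an algebraic closure of `K`, for which all forms given by algebraic classes have a
limit, and those given by numerically trivial classes have the limit `0`. As in the theory of Kempf,
there is a unique filtration of smallest norm among those normalised by the forms of degree `≤ N`; the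
uniqueness implies that it is defined over `K`, self-dual, and stable under correspondences and
symmetries. It is homogeneous since the automorphism `2 ^ i` of `H^i` is a symmetry, and
multiplicative since the trilinear form `tr (a b c)` is given by an algebraic class. Slices of classes
by a basis adapted to the filtration translate the weights of forms to the weights of classes.
-/

universe u v

namespace Pool.Agent.Results.MP_f569db_ag.WeightFiltration

open CategoryTheory Pool.Agent.H914 Pool.Agent.H914.VarClass Pool.Agent.R908
  Pool.Agent.N180.Cf

/-- **Numerical equivalence is detected by a canonical weight filtration.** -/
theorem result {k : Type u} [Field k] {𝒱 : VarClass k} {ops : CycleOps 𝒱}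
    (W : WeilCohomology.{u, v} ops) (X : 𝒱.Obj) (hX : SignOpAlgebraic W X) (𝒴 : Set 𝒱.Obj)
    (h𝒴 : ∀ Y, IsProductOf 𝒴 Y → HomEqNum W Y) (N : ℕ) (hN : 3 ≤ N) :
    ∃ F : ℝ → Submodule W.K (W.H X), IsWeightFiltration W X F ∧
      ForDominated W X 𝒴 N (fun _ _ _ g => Detects W F g) ∧
      List.TFAE [
        ∀ n ≤ N, ∀ Y, IsProductOf 𝒴 Y → HomEqNum W (pX X Y n),
        ForDominated W X 𝒴 N (fun _ _ V _ => HomEqNum W V),
        IsTrivial F] :=
  weightFiltration W X hX 𝒴 h𝒴 N hN

end Pool.Agent.Results.MP_f569db_ag.WeightFiltration
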