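import Pool.Agent.N180.ZlL

/-!
# The zero-one law for conjecture D on the powers of a variety

Let `W` be a Weil cohomology theory, with coefficients in any field `K` of characteristic zero (for
instance `ℚ_ℓ`), on a class of smooth proper varieties over a field `k` closed under products. Let
`X` be any variety in the class whose sign operator, `(-1) ^ i` on `H^i(X)`, is a `K`-linear
combination of algebraic correspondences (`SignOpAlgebraic`), and let `P` be of dimension `0`, for
instance a point.

For a variety `V` let `homRank V` be the dimension of the `K`-span in `H(V)` of the classes of all
algebraic cycles, and let `numRank V ≤ homRank V` be the rank of the intersection form on this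
span. (It is the dimension of the space of all cycles on `V` with rational coefficients, modulo
numerical equivalence.) The conjecture D for `V` implies that the two numbers are equal.

**Theorem (zero-one law).** Either the conjecture D, homological = numerical equivalence, holds for
all powers of `X`, and `numRank (X^n) = homRank (X^n)` for all `n`; or the proportion
`numRank (X^n) / homRank (X^n)` of numerically nontrivial classes tends to `0` for `n → ∞`: if D
does not hold for `X^m`, then the proportion is at most `C n ^ (-κ)`, where
`κ = 1 / (8 b ^ (2 m) + 4)`, `b = dim H(X)`, and where `C` depends only on `b` and `m`, but not on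
`X`, `k` and `W`.

So for all `b`, `m` and `c > 0` (for instance `c = 1/100`) there is a number `n₀` such that a single
power decides: if the proportion of numerically nontrivial classes is at least `c` for **one** power
`X^n`, `n ≥ n₀`, of a variety `X` with total Betti number `b`, then D holds for `X^m`. And D for
all powers of `X` is equivalent to a proportion `≥ c > 0` for infinitely many `n`. It is enough to
know the conjecture D for a positive proportion of the classes; if it fails at all for a power
of `X`, then it fails for almost all classes on the large powers of `X`.

A polynomial rate is the best possible in this generality: for the formally analogous case of the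
invariants of the additive group in the powers of its representation on `K^2`, the proportion
is of the order `1 / n`.

Examples. `X` can be **any** smooth projective variety over an algebraic closure of a finite field, with
`ℓ`-adic cohomology, for any `ℓ`: the sign operator is algebraic by Katz and Messing. Over any `k`, it can
be an abelian variety, a surface, a variety with `H^i(X) = 0` for all odd `i`, a smooth complete
intersection, and any product of these.

Proof. The classes on the powers of `X` are homomorphisms between tensor powers of `H(X)`. Since the
algebras of correspondences modulo numerical equivalence are semisimple, the numbers `hs(A, B)` of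
homomorphisms modulo numerical equivalence define a positive semi-definite form on the virtual
objects: in particular `hs(A, B)^2 ≤ hs(A, A) hs(B, B)`. Together with the lower bound for
`a n := numRank (X^(2n))` given by the permutations of the factors, this shows that for most `n`, after
the tensor product with `n` factors `H(X)`, every object `T` is equal to `dim T` times the unit
object up to an error term of size `n ^ (-1/4)`: for the tensor product `T` of `2m` factors `H(X)`, for
its exterior powers and, by the Koszul complex, for its symmetric powers `S^k T`, `k ≤ n ^ κ`. So there
are about `dim (S^k T) * a n` homomorphisms from `S^k T`, modulo numerical equivalence. Let now `z` be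
a nonzero numerically trivial class in `T` (the square of one on `X^m`). The canonical filtration of
`H(X)` of the theorem `WeightFiltration` gives weights such that `z` has positive weight, and so
the values at the power `z^k` of the leading parts of these homomorphisms, for `k ≤ n ^ κ`, are in
different weights. All homomorphisms from a complement of the line of `z^k` are at most
`(dim (S^k T) - 1) * a n`, so every `k` contributes about `a n` to `homRank (X^(2n))`.
-/

universe u v

namespace Pool.Agent.Results.MP_f569db_ag.ZeroOneLaw

open CategoryTheory Pool.Agent.H914 Pool.Agent.H914.VarClass Pool.Agent.R908
  Pool.Agent.N180.Cf Pool.Agent.N180.Zl Module Filter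

/-- **The zero-one law for conjecture D.** -/
theorem result :
    (∀ b m : ℕ, ∃ C : ℝ, ∀ {k : Type u} [Field k] {𝒱 : VarClass k} {ops : CycleOps 𝒱}
      (W : WeilCohomology.{u, v} ops) (X P : 𝒱.Obj), IsCase W X P b →
      ¬ HomEqNum W (pX X P m) → IsSmall C (exponent b m) (numRanks W X P) (homRanks W X P)) ∧
    (∀ (b m : ℕ) (c : ℝ), 0 < c → ∃ n₀ : ℕ, ∀ {k : Type u} [Field k] {𝒱 : VarClass k}
      {ops : CycleOps 𝒱} (W : WeilCohomology.{u, v} ops) (X P : 𝒱.Obj), IsCase W X P b →
      ∀ n ≥ n₀, c * homRanks W X P n ≤ numRanks W X P n → HomEqNum W (pX X P m)) ∧
    ∀ {k : Type u} [Field k] {𝒱 : VarClass k} {ops : CycleOps 𝒱}
      (W : WeilCohomology.{u, v} ops) (X P : 𝒱.Obj) (b : ℕ), IsCase W X P b → List.TFAE [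
        ∀ n, HomEqNum W (pX X P n),
        ∀ n, numRanks W X P n = homRanks W X P n,
        ∃ c : ℝ, 0 < c ∧ ∃ᶠ n in atTop, c * homRanks W X P n ≤ numRanks W X P n] :=
  zero_one_law_all

end Pool.Agent.Results.MP_f569db_ag.ZeroOneLaw
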